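import Pool.Agent.MP_c06449_al.H73.Final

/-!
There are continuum many pairwise inequivalent types of systolic growth below a fixed polynomial
among compactly generated locally compact groups of polynomial growth with a lattice.
-/

namespace Pool.Agent.Results.MP_c06449_al.Continuum

open Pool.Agent.MP_c06449_al.H73

theorem result : ∃ d : ℕ, ∃ X : Set ℕ → Setting,
    (∀ T, Prec (X T).sigma fun r => ENNReal.ofReal (r ^ d)) ∧
    ∀ T T', T ≠ T' → ¬ (Prec (X T).sigma (X T').sigma ∧ Prec (X T').sigma (X T).sigma) :=
  ⟨45, fun T => X (ST T), fun T => sigma_poly (ST T), fun _ _ hne h =>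
    hne (Set.Subset.antisymm (subset_of_prec h.2) (subset_of_prec h.1))⟩

end Pool.Agent.Results.MP_c06449_al.Continuum
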